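import Pool.Agent.Q267.BM.Main

/-!
# MP_3b55a2_co: the second-order ratios of the Boros-Moll numbers are log-concave (Q1)

For `ℓ ≥ 1` the sequence `x_ℓ(m) = d_ℓ(m-1) d_ℓ(m+1) / d_ℓ(m)²`, `m ≥ ℓ + 1`, of the transposed Boros-Moll
sequence is strictly log-concave: `x_ℓ(m-1) x_ℓ(m+1) < x_ℓ(m)²` for all `m ≥ ℓ + 2`.

The proof.  Let `a_m = d_ℓ(m)`, `r_m = a_{m+1} / a_m` and `N_m = 2 (m+1) (m+1-ℓ) r_m`.  The recurrence of order two
(proved here from the sum which defines `d_ℓ(m)`, by a certificate of Zeilberger's type) becomes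
`N_m N_{m-1} = (8m²+8m+3-4ℓ²) N_{m-1} - (m²-ℓ²)(16m²-1)`, `N_ℓ = (2ℓ+1)(2ℓ+3)`, and induction gives
`N_m ≥ (2m+1)(2m+3) - 3 (m²-ℓ²) / (4ℓ²+3m)`.  The inequality is one between `r_n`, `n = m - 1`, and its two
neighbours; by the recurrence it has the form `c (N_{n+1} / N_n)⁴ > quadratic polynomial in 1 / N_n`.  The fourth power
is replaced by its tangent at `(2n+5) / (2n+1)`.  What remains is a quadratic polynomial in `N_n` with coefficients in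
`ℤ[n, ℓ]`; its leading coefficient, and its derivative and its value at the lower bound of `N_n`, are polynomials in
`ℓ - 1 ≥ 0` and `n - ℓ - 1 ≥ 0` with positive coefficients.
-/
set_option autoImplicit false

namespace Pool.Agent.Results.MP_3b55a2_co.SecondOrderRatios

open Finset

/-- The Boros-Moll numbers `d_ℓ(m) = 2^{-2m} ∑_{k=ℓ}^m 2^k C(2m-2k, m-k) C(m+k, m) C(k, ℓ)`. -/
def d (ℓ m : ℕ) : ℚ :=
  (∑ k ∈ Icc ℓ m, 2 ^ k * ((2 * m - 2 * k).choose (m - k) : ℚ) * ((m + k).choose m : ℚ) * (k.choose ℓ : ℚ)) /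
    2 ^ (2 * m)

/-- The second-order ratios `x_ℓ(m) = d_ℓ(m-1) d_ℓ(m+1) / d_ℓ(m)²`. -/
def x (ℓ m : ℕ) : ℚ := d ℓ (m - 1) * d ℓ (m + 1) / d ℓ m ^ 2

theorem d_eq (ℓ m : ℕ) : d ℓ m = Pool.Agent.Q267.BM.D ℓ m := by
  unfold d Pool.Agent.Q267.BM.D
  rw [Finset.sum_div]
  have hsub : Icc ℓ m ⊆ range (m + 1) := by
    intro k hk
    rw [mem_Icc] at hk
    rw [mem_range]
    omega
  rw [← Finset.sum_subset hsub]
  · apply Finset.sum_congr rfl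
    intro k _
    unfold Pool.Agent.Q267.BM.F
    rw [pow_mul]
    norm_num
  · intro k hk hk2
    rw [mem_range] at hk
    rw [mem_Icc] at hk2
    unfold Pool.Agent.Q267.BM.F
    rw [Nat.choose_eq_zero_of_lt (show k < ℓ by omega)]
    simp

/-- **Q1.** For all integers `ℓ ≥ 1` and `m ≥ ℓ + 2`: `x_ℓ(m-1) x_ℓ(m+1) < x_ℓ(m)²`. -/
theorem result (ℓ m : ℕ) (hℓ : 1 ≤ ℓ) (hm : ℓ + 2 ≤ m) : x ℓ (m - 1) * x ℓ (m + 1) < x ℓ m ^ 2 := by
  obtain ⟨p, rfl⟩ : ∃ p, m = p + 2 := ⟨m - 2, by omega⟩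
  have h : ℓ ≤ p := by omega
  have key := Pool.Agent.Q267.BM.main_D hℓ h
  have a0 := Pool.Agent.Q267.BM.D_pos h
  have a1 := Pool.Agent.Q267.BM.D_pos (show ℓ ≤ p + 1 by omega)
  have a2 := Pool.Agent.Q267.BM.D_pos (show ℓ ≤ p + 2 by omega)
  have a3 := Pool.Agent.Q267.BM.D_pos (show ℓ ≤ p + 3 by omega)
  have a4 := Pool.Agent.Q267.BM.D_pos (show ℓ ≤ p + 4 by omega)
  have e1 : p + 2 - 1 = p + 1 := by omega
  have e2 : p + 1 - 1 = p := by omega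
  have e3 : p + 2 + 1 - 1 = p + 2 := by omega
  unfold x
  rw [e1, e2, e3]
  have e4 : p + 1 + 1 = p + 2 := rfl
  have e5 : p + 2 + 1 = p + 3 := rfl
  have e6 : p + 3 + 1 = p + 4 := rfl
  rw [e4, e5, e6]
  simp only [d_eq]
  set d0 := Pool.Agent.Q267.BM.D ℓ p
  set d1 := Pool.Agent.Q267.BM.D ℓ (p + 1)
  set d2 := Pool.Agent.Q267.BM.D ℓ (p + 2)
  set d3 := Pool.Agent.Q267.BM.D ℓ (p + 3)
  set d4 := Pool.Agent.Q267.BM.D ℓ (p + 4)
  have h1 : d0 * d2 / d1 ^ 2 * (d2 * d4 / d3 ^ 2) = (d0 * d4 * d2 ^ 6) / (d1 ^ 2 * d3 ^ 2 * d2 ^ 4) := by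
    field_simp
  have h2 : (d1 * d3 / d2 ^ 2) ^ 2 = (d1 ^ 4 * d3 ^ 4) / (d1 ^ 2 * d3 ^ 2 * d2 ^ 4) := by
    field_simp
  rw [h1, h2]
  exact div_lt_div_of_pos_right key (by positivity)

end Pool.Agent.Results.MP_3b55a2_co.SecondOrderRatios
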